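import Mathlib
import Pool.Agent.Helper475.Miranda

/-!
# MP_54b048_an: a fixed-point free flow and two points that are separated only by flow factors of
infinite entropy

The flow is translation on the space of 1-Lipschitz functions `ℝ → [0,1]`, times the rotation flow
on `ℝ/ℤ`.  The two points are `(0, 0)` and `(bump, 0)`.
-/

namespace Pool.Agent.Results.MP_54b048_an.InfiniteEntropyFactors

open Set Topology Filter Uniformity

/-! ### the space of Lipschitz functions with the topology of pointwise convergence -/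

/-- 1-Lipschitz functions `ℝ → [0,1]` -/
def Lip : Set (ℝ → ℝ) := {f | (∀ x, f x ∈ Icc (0 : ℝ) 1) ∧ ∀ x y, |f x - f y| ≤ |x - y|}

lemma isCompact_Lip : IsCompact Lip := by
  have h1 : IsCompact (Set.pi univ fun _ : ℝ => Icc (0 : ℝ) 1) :=
    isCompact_univ_pi fun _ => isCompact_Icc
  have h2 : IsClosed {f : ℝ → ℝ | ∀ x y, |f x - f y| ≤ |x - y|} := by
    have : {f : ℝ → ℝ | ∀ x y, |f x - f y| ≤ |x - y|} =
        ⋂ x, ⋂ y, {f : ℝ → ℝ | |f x - f y| ≤ |x - y|} := by ext f; simp
    rw [this]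
    refine isClosed_iInter fun x => isClosed_iInter fun y => isClosed_le ?_ continuous_const
    exact ((continuous_apply x).sub (continuous_apply y)).abs
  refine (h1.inter_right h2).of_isClosed_subset ?_ ?_
  · have : Lip = (Set.pi univ fun _ : ℝ => Icc (0 : ℝ) 1) ∩
        {f : ℝ → ℝ | ∀ x y, |f x - f y| ≤ |x - y|} := by
      ext f; simp only [Lip, mem_inter_iff, mem_univ_pi]; rfl
    rw [this]
    exact h1.isClosed.inter h2
  · rintro f ⟨h3, h4⟩
    exact ⟨fun x _ => h3 x, h4⟩

instance : CompactSpace Lip := isCompact_iff_compactSpace.1 isCompact_Lip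

instance : TopologicalSpace.MetrizableSpace Lip := by
  let g : Lip → (ℚ → ℝ) := fun f q => f.1 (q : ℝ)
  have hg : Continuous g := continuous_pi fun q => (continuous_apply (q : ℝ)).comp
    continuous_subtype_val
  have hinj : Function.Injective g := by
    intro f f' h
    apply Subtype.ext
    have hc : ∀ f : Lip, Continuous f.1 := fun f => by
      have : LipschitzWith 1 f.1 := LipschitzWith.of_dist_le_mul fun x y => by
        rw [Real.dist_eq, Real.dist_eq, NNReal.coe_one, one_mul]; exact f.2.2 x y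
      exact this.continuous
    refine Continuous.ext_on Rat.isDenseEmbedding_coe_real.dense (hc f) (hc f') ?_
    rintro _ ⟨q, rfl⟩
    exact congrFun h q
  exact (hg.isClosedEmbedding hinj).isEmbedding.metrizableSpace

/-- the phase space -/
abbrev XX : Type := Lip × AddCircle (1 : ℝ)

/-- translation of a Lipschitz function -/
def tr (t : ℝ) (f : Lip) : Lip := ⟨fun x => f.1 (x + t), fun x => f.2.1 (x + t), fun x y => by
  have := f.2.2 (x + t) (y + t)
  rwa [add_sub_add_right_eq_sub] at this⟩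

lemma continuous_tr : Continuous fun p : ℝ × Lip => tr p.1 p.2 := by
  refine Continuous.subtype_mk ?_ _
  refine continuous_pi fun x => ?_
  rw [continuous_iff_continuousAt]
  rintro ⟨t₀, f₀⟩
  rw [ContinuousAt, tendsto_iff_dist_tendsto_zero]
  have h1 : Tendsto (fun p : ℝ × Lip => |p.1 - t₀| + |p.2.1 (x + t₀) - f₀.1 (x + t₀)|)
      (𝓝 (t₀, f₀)) (𝓝 0) := by
    have hc : Continuous fun p : ℝ × Lip => |p.1 - t₀| + |p.2.1 (x + t₀) - f₀.1 (x + t₀)| := by
      have h2 : Continuous fun p : ℝ × Lip => p.2.1 (x + t₀) :=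
        (continuous_apply (x + t₀)).comp (continuous_subtype_val.comp continuous_snd)
      exact (continuous_fst.sub continuous_const).abs.add (h2.sub continuous_const).abs
    have := hc.tendsto (t₀, f₀)
    simpa using this
  refine squeeze_zero (fun _ => dist_nonneg) (fun p => ?_) h1
  rw [Real.dist_eq]
  have h3 := p.2.2.2 (x + p.1) (x + t₀)
  have h4 : x + p.1 - (x + t₀) = p.1 - t₀ := by ring
  rw [h4] at h3
  calc |p.2.1 (x + p.1) - f₀.1 (x + t₀)|
      ≤ |p.2.1 (x + p.1) - p.2.1 (x + t₀)| + |p.2.1 (x + t₀) - f₀.1 (x + t₀)| :=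
        abs_sub_le _ _ _
    _ ≤ _ := by linarith

/-- the flow -/
def flow : Flow ℝ XX where
  toFun t p := (tr t p.1, p.2 + ((t : ℝ) : AddCircle (1 : ℝ)))
  cont' := by
    have h1 : Continuous fun q : ℝ × XX => tr q.1 q.2.1 :=
      continuous_tr.comp (continuous_fst.prodMk (continuous_fst.comp continuous_snd))
    have h2 : Continuous fun q : ℝ × XX => q.2.2 + ((q.1 : ℝ) : AddCircle (1 : ℝ)) :=
      (continuous_snd.comp continuous_snd).add
        ((AddCircle.continuous_mk' (1 : ℝ)).comp continuous_fst)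
    exact h1.prodMk h2
  map_add' t₁ t₂ p := by
    refine Prod.ext (Subtype.ext ?_) ?_
    · funext x
      show p.1.1 (x + (t₁ + t₂)) = p.1.1 (x + t₁ + t₂)
      rw [add_assoc]
    · show p.2 + ((t₁ + t₂ : ℝ) : AddCircle (1 : ℝ)) = p.2 + (t₂ : AddCircle (1 : ℝ)) + t₁
      rw [AddCircle.coe_add]
      abel
  map_zero' p := by
    refine Prod.ext (Subtype.ext ?_) ?_
    · funext x
      show p.1.1 (x + 0) = p.1.1 x
      rw [add_zero]
    · show p.2 + ((0 : ℝ) : AddCircle (1 : ℝ)) = p.2
      rw [AddCircle.coe_zero, add_zero]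

lemma flow_apply (t : ℝ) (p : XX) : flow t p = (tr t p.1, p.2 + ((t : ℝ) : AddCircle (1 : ℝ))) :=
  rfl

lemma fixed_point_free (p : XX) : ∃ t : ℝ, flow t p ≠ p := by
  refine ⟨1 / 2, fun h => ?_⟩
  have h1 : p.2 + (((1 / 2 : ℝ)) : AddCircle (1 : ℝ)) = p.2 := congrArg Prod.snd h
  have h2 : (((1 / 2 : ℝ)) : AddCircle (1 : ℝ)) = 0 := by simpa using h1
  rw [AddCircle.coe_eq_zero_iff] at h2
  obtain ⟨n, hn⟩ := h2
  rw [zsmul_eq_mul, mul_one] at hn
  have h3 : ((2 * n : ℤ) : ℝ) = ((1 : ℤ) : ℝ) := by push_cast; linarith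
  have h4 : 2 * n = 1 := by exact_mod_cast h3
  omega

/-! ### bumps -/

/-- the bump -/
noncomputable def bump (x : ℝ) : ℝ := max 0 (1 - |x|)

lemma bump_nonneg (x : ℝ) : 0 ≤ bump x := le_max_left _ _

lemma bump_le_one (x : ℝ) : bump x ≤ 1 :=
  max_le (by norm_num) (by linarith [abs_nonneg x])

lemma bump_zero {x : ℝ} (h : 1 ≤ |x|) : bump x = 0 := max_eq_left (by linarith)

lemma bump_lip (x y : ℝ) : |bump x - bump y| ≤ |x - y| := by
  unfold bump
  refine (abs_max_sub_max_le_max _ _ _ _).trans ?_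
  rw [sub_self, abs_zero, max_eq_right (abs_nonneg _)]
  have : 1 - |x| - (1 - |y|) = -(|x| - |y|) := by ring
  rw [this, abs_neg]
  exact abs_abs_sub_abs_le_abs_sub x y

/-- superposition of `N` bumps of heights `t 0, ..., t (N-1)` at `0, L, 2L, ...` -/
noncomputable def ZZ (L : ℝ) (t : ℕ → ℝ) : ℕ → ℝ → ℝ
  | 0, _ => 0
  | N + 1, x => max (ZZ L t N x) (t N * bump (x - N * L))

lemma ZZ_mem {L : ℝ} {t : ℕ → ℝ} (ht : ∀ n, t n ∈ Icc (0 : ℝ) 1) (N : ℕ) : ZZ L t N ∈ Lip := by
  induction N with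
  | zero => exact ⟨fun x => ⟨le_rfl, zero_le_one⟩, fun x y => by simp [ZZ]⟩
  | succ N ih =>
    refine ⟨fun x => ⟨?_, ?_⟩, fun x y => ?_⟩
    · exact le_max_of_le_left (ih.1 x).1
    · exact max_le (ih.1 x).2 (mul_le_one₀ (ht N).2 (bump_nonneg _) (bump_le_one _))
    · refine (abs_max_sub_max_le_max _ _ _ _).trans (max_le (ih.2 x y) ?_)
      rw [← mul_sub, abs_mul, abs_of_nonneg (ht N).1]
      have h1 := bump_lip (x - N * L) (y - N * L)
      rw [sub_sub_sub_cancel_right] at h1
      calc t N * |bump (x - N * L) - bump (y - N * L)| ≤ 1 * |x - y| :=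
            mul_le_mul (ht N).2 h1 (abs_nonneg _) zero_le_one
        _ = |x - y| := one_mul _

lemma ZZ_local {L : ℝ} {t : ℕ → ℝ} (ht : ∀ n, t n ∈ Icc (0 : ℝ) 1) {x : ℝ} {n : ℕ}
    (hx : ∀ j : ℕ, j ≠ n → 1 ≤ |x - j * L|) (N : ℕ) :
    ZZ L t N x = if n < N then t n * bump (x - n * L) else 0 := by
  induction N with
  | zero => simp [ZZ]
  | succ N ih =>
    simp only [ZZ]
    rw [ih]
    rcases lt_trichotomy n N with h | h | h
    · rw [if_pos h, if_pos (by omega), bump_zero (hx N (by omega)), mul_zero]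
      exact max_eq_left (mul_nonneg (ht n).1 (bump_nonneg _))
    · subst h
      rw [if_neg (lt_irrefl _), if_pos (by omega)]
      exact max_eq_right (mul_nonneg (ht _).1 (bump_nonneg _))
    · rw [if_neg (by omega), if_neg (by omega), bump_zero (hx N (by omega)), mul_zero, max_self]

lemma continuous_ZZ {α : Type*} [TopologicalSpace α] (L : ℝ) (t : α → ℕ → ℝ)
    (ht : ∀ n, Continuous fun a => t a n) (N : ℕ) (x : ℝ) : Continuous fun a => ZZ L (t a) N x := by
  induction N with
  | zero => exact continuous_const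
  | succ N ih =>
    simp only [ZZ]
    exact ih.max ((ht N).mul continuous_const)

/-- clamp -/
noncomputable def cl (x : ℝ) : ℝ := max 0 (min 1 x)

lemma cl_mem (x : ℝ) : cl x ∈ Icc (0 : ℝ) 1 :=
  ⟨le_max_left _ _, max_le (by norm_num) (min_le_left _ _)⟩

lemma cl_eq {x : ℝ} (h0 : 0 ≤ x) (h1 : x ≤ 1) : cl x = x := by
  unfold cl; rw [min_eq_right h1, max_eq_right h0]

/-- the heights from a finite vector -/
noncomputable def ht (N : ℕ) (t : Fin N → ℝ) (n : ℕ) : ℝ := if h : n < N then cl (t ⟨n, h⟩) else 0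

lemma ht_mem (N : ℕ) (t : Fin N → ℝ) (n : ℕ) : ht N t n ∈ Icc (0 : ℝ) 1 := by
  unfold ht
  split_ifs
  · exact cl_mem _
  · exact ⟨le_rfl, zero_le_one⟩

lemma continuous_ht (N : ℕ) (n : ℕ) : Continuous fun t : Fin N → ℝ => ht N t n := by
  unfold ht cl
  split_ifs
  · fun_prop
  · exact continuous_const

/-- the point of the phase space -/
noncomputable def pt (L N : ℕ) (t : Fin N → ℝ) : XX := (⟨ZZ L (ht N t) N, ZZ_mem (ht_mem N t) N⟩, 0)

lemma continuous_pt (L N : ℕ) : Continuous (pt L N) := by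
  refine Continuous.prodMk (Continuous.subtype_mk (continuous_pi fun x => ?_) _) continuous_const
  exact continuous_ZZ _ _ (continuous_ht N) N x

/-- the two points -/
noncomputable def w₀ : XX := (⟨fun _ => 0, fun _ => ⟨le_rfl, zero_le_one⟩, fun x y => by simp⟩, 0)

/-- the two points -/
noncomputable def w₁ : XX := (⟨bump, fun x => ⟨bump_nonneg x, bump_le_one x⟩, bump_lip⟩, 0)

lemma w_ne : w₀ ≠ w₁ := by
  intro h
  have h1 : (0 : ℝ) = bump 0 := congrArg (fun p : XX => p.1.1 0) h
  simp [bump] at h1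

/-- neighbourhoods in the fibre over `0` -/
lemma exists_window {O : Set XX} (hO : IsOpen O) {f : Lip} (hf : (f, (0 : AddCircle (1 : ℝ))) ∈ O) :
    ∃ M : ℕ, ∀ g : Lip, (∀ x : ℝ, |x| ≤ M → g.1 x = f.1 x) → (g, (0 : AddCircle (1 : ℝ))) ∈ O := by
  have h1 : IsOpen {g : Lip | (g, (0 : AddCircle (1 : ℝ))) ∈ O} :=
    hO.preimage (continuous_id.prodMk continuous_const)
  obtain ⟨O', hO', hOO⟩ := isOpen_induced_iff.1 h1
  have hf' : f.1 ∈ O' := by
    have : f ∈ Subtype.val ⁻¹' O' := by rw [hOO]; exact hf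
    exact this
  obtain ⟨I, u, hu, hsub⟩ := isOpen_pi_iff.1 hO' f.1 hf'
  obtain ⟨M, hM⟩ : ∃ M : ℕ, ∀ x ∈ I, |x| ≤ M := by
    obtain ⟨M, hM⟩ := exists_nat_ge (∑ x ∈ I, |x|)
    refine ⟨M, fun x hx => le_trans ?_ hM⟩
    exact Finset.single_le_sum (f := fun x => |x|) (fun _ _ => abs_nonneg _) hx
  refine ⟨M, fun g hg => ?_⟩
  have : g ∈ Subtype.val ⁻¹' O' := by
    refine hsub fun x hx => ?_
    rw [hg x (hM x hx)]
    exact (hu x hx).2
  rw [hOO] at this
  exact this

universe u

/-- the entropy estimate -/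
lemma entropy_top {Y : Type u} [MetricSpace Y] [CompactSpace Y] (ψ : Flow ℝ Y) (π : XX → Y)
    (hπ : Flow.IsSemiconjugacy π flow ψ) (hne : π w₀ ≠ π w₁) :
    Dynamics.coverEntropy (ψ 1) univ = ⊤ := by
  classical
  have hdpos : 0 < dist (π w₁) (π w₀) := dist_pos.2 (Ne.symm hne)
  -- the separating function
  let F : Y → ℝ := fun y => dist y (π w₀) / dist (π w₁) (π w₀)
  have hF : Continuous F := (continuous_id.dist continuous_const).div_const _
  have hF0 : F (π w₀) = 0 := by simp [F]
  have hF1 : F (π w₁) = 1 := div_self hdpos.ne'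
  have hG : Continuous fun p => F (π p) := hF.comp hπ.cont
  obtain ⟨M₀, hM₀⟩ := exists_window (O := {p | F (π p) < 1 / 4})
    (isOpen_lt hG continuous_const) (f := w₀.1) (by
      show F (π w₀) < 1 / 4
      rw [hF0]; norm_num)
  obtain ⟨M₁, hM₁⟩ := exists_window (O := {p | 3 / 4 < F (π p)})
    (isOpen_lt continuous_const hG) (f := w₁.1) (by
      show 3 / 4 < F (π w₁)
      rw [hF1]; norm_num)
  set M := max M₀ M₁ with hM
  set L := M + 1 with hL
  -- shifted points
  have hshift : ∀ (N : ℕ) (t : Fin N → ℝ) (n : Fin N), (∀ i, 0 ≤ t i ∧ t i ≤ 1) →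
      (flow ((n : ℕ) * L : ℝ) (pt L N t)).2 = 0 ∧
      ∀ x : ℝ, |x| ≤ M → (flow ((n : ℕ) * L : ℝ) (pt L N t)).1.1 x = t n * bump x := by
    intro N t n ht01
    constructor
    · rw [flow_apply]
      show (0 : AddCircle (1 : ℝ)) + ((((n : ℕ) : ℝ) * (L : ℝ) : ℝ) : AddCircle (1 : ℝ)) = 0
      rw [zero_add, AddCircle.coe_eq_zero_iff]
      exact ⟨((n : ℕ) * L : ℕ), by push_cast; simp⟩
    · intro x hx
      rw [flow_apply]
      show ZZ L (ht N t) N (x + (n : ℕ) * L) = t n * bump x
      have hLr : (L : ℝ) = M + 1 := by rw [hL]; push_cast; ring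
      rw [ZZ_local (ht_mem N t) (n := n), if_pos n.2]
      · have h1 : x + (n : ℕ) * (L : ℝ) - (n : ℕ) * L = x := by ring
        rw [h1]
        congr 1
        unfold ht
        rw [dif_pos n.2]
        exact cl_eq (ht01 _).1 (ht01 _).2
      · intro j hj
        have h1 : x + (n : ℕ) * (L : ℝ) - j * L = x - ((j : ℝ) - (n : ℕ)) * L := by ring
        rw [h1]
        have h2 : (1 : ℝ) ≤ |(j : ℝ) - (n : ℕ)| := by
          rcases lt_or_gt_of_ne hj with h3 | h3
          · have : (j : ℝ) + 1 ≤ (n : ℕ) := by exact_mod_cast h3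
            rw [abs_of_neg (by linarith)]; linarith
          · have : ((n : ℕ) : ℝ) + 1 ≤ j := by exact_mod_cast h3
            rw [abs_of_pos (by linarith)]; linarith
        have hLpos : (0 : ℝ) < L := by rw [hLr]; positivity
        have h3 : (L : ℝ) ≤ |((j : ℝ) - (n : ℕ)) * L| := by
          rw [abs_mul, abs_of_pos hLpos]
          nlinarith
        have h4 := abs_sub_abs_le_abs_sub (((j : ℝ) - (n : ℕ)) * L) x
        rw [abs_sub_comm] at h4
        linarith
  -- signs on the faces
  have hface : ∀ (N : ℕ) (t : Fin N → ℝ), (∀ i, 0 ≤ t i ∧ t i ≤ 1) → ∀ n : Fin N,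
      (t n = 0 → F (π (flow ((n : ℕ) * L : ℝ) (pt L N t))) < 1 / 4) ∧
      (t n = 1 → 3 / 4 < F (π (flow ((n : ℕ) * L : ℝ) (pt L N t)))) := by
    intro N t ht01 n
    obtain ⟨h1, h2⟩ := hshift N t n ht01
    have h3 : flow ((n : ℕ) * L : ℝ) (pt L N t) =
        ((flow ((n : ℕ) * L : ℝ) (pt L N t)).1, (0 : AddCircle (1 : ℝ))) := Prod.ext rfl h1
    constructor
    · intro h0
      rw [h3]
      refine hM₀ _ fun x hx => ?_
      rw [h2 x (hx.trans (by exact_mod_cast le_max_left _ _)), h0, zero_mul]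
      rfl
    · intro h0
      rw [h3]
      refine hM₁ _ fun x hx => ?_
      rw [h2 x (hx.trans (by exact_mod_cast le_max_right _ _)), h0, one_mul]
      rfl
  -- Poincare-Miranda
  have hPM : ∀ (N : ℕ) (c : Fin N → ℝ), (∀ n, 1 / 4 ≤ c n ∧ c n ≤ 3 / 4) →
      ∃ y : Y, ∀ n : Fin N, F (ψ ((n : ℕ) * L : ℝ) y) = c n := by
    intro N c hc
    obtain ⟨t, ht01, ht⟩ := Pool.Agent.Helper475.Miranda.poincare_miranda N
      (fun t n => F (π (flow ((n : ℕ) * L : ℝ) (pt L N t))) - c n)
      (by
        refine Continuous.continuousOn (continuous_pi fun n => ?_)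
        have h1 : Continuous (flow ((n : ℕ) * L : ℝ)) := flow.continuous_toFun _
        exact (hG.comp (h1.comp (continuous_pt L N))).sub continuous_const)
      (fun t ht01 n h0 => by
        have := (hface N t ht01 n).1 h0
        have := (hc n).1
        show F (π (flow ((n : ℕ) * L : ℝ) (pt L N t))) - c n ≤ 0
        linarith)
      (fun t ht01 n h0 => by
        have := (hface N t ht01 n).2 h0
        have := (hc n).2
        show 0 ≤ F (π (flow ((n : ℕ) * L : ℝ) (pt L N t))) - c n
        linarith)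
    refine ⟨π (pt L N t), fun n => ?_⟩
    have h1 := congrFun ht n
    simp only [Pi.zero_apply] at h1
    have h2 : ψ ((n : ℕ) * L : ℝ) (π (pt L N t)) = π (flow ((n : ℕ) * L : ℝ) (pt L N t)) :=
      (hπ.semiconj _ _).symm
    rw [h2]
    linarith
  have hiter : ∀ (m : ℕ) (y : Y), (ψ 1)^[m] y = ψ (m : ℝ) y := by
    intro m
    induction m with
    | zero => intro y; simp
    | succ m ih =>
      intro y
      rw [Function.iterate_succ_apply', ih, ← ψ.map_add]
      push_cast
      rw [add_comm]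
  -- the lower bound
  have hlow : ∀ k : ℕ, 1 ≤ k → ((Real.log k / L : ℝ) : EReal) ≤
      Dynamics.coverEntropy (ψ 1) univ := by
    intro k hk
    have hk0 : (0 : ℝ) < k := by exact_mod_cast hk
    set U : SetRel Y Y := {p | dist (F p.1) (F p.2) < 1 / (4 * k)} with hU
    have hUu : U ∈ 𝓤 Y := by
      have h1 := CompactSpace.uniformContinuous_of_continuous hF
      exact h1 (Metric.dist_mem_uniformity (by positivity))
    let cv : Fin k → ℝ := fun j => 1 / 4 + (j : ℕ) / (2 * k)
    have hcv : ∀ j, 1 / 4 ≤ cv j ∧ cv j ≤ 3 / 4 := by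
      intro j
      have h1 : ((j : ℕ) : ℝ) ≤ k := by exact_mod_cast j.2.le
      have h2 : (0 : ℝ) ≤ ((j : ℕ) : ℝ) / (2 * k) := by positivity
      have h3 : ((j : ℕ) : ℝ) / (2 * k) ≤ 1 / 2 := by
        rw [div_le_iff₀ (by positivity)]; linarith
      simp only [cv]
      constructor <;> linarith
    have hcvsep : ∀ i j, i ≠ j → 1 / (2 * (k : ℝ)) ≤ |cv i - cv j| := by
      intro i j hij
      have h1 : cv i - cv j = (((i : ℕ) : ℝ) - (j : ℕ)) / (2 * k) := by
        simp only [cv]; ring
      rw [h1, abs_div, abs_of_pos (by positivity : (0 : ℝ) < 2 * k)]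
      refine div_le_div_of_nonneg_right ?_ (by positivity)
      have hij' : (i : ℕ) ≠ j := fun h => hij (Fin.ext h)
      rcases lt_or_gt_of_ne hij' with h3 | h3
      · have : ((i : ℕ) : ℝ) + 1 ≤ (j : ℕ) := by exact_mod_cast h3
        rw [abs_of_neg (by linarith)]; linarith
      · have : ((j : ℕ) : ℝ) + 1 ≤ (i : ℕ) := by exact_mod_cast h3
        rw [abs_of_pos (by linarith)]; linarith
    have key : ∀ N : ℕ, ((k ^ N : ℕ) : ℕ∞) ≤ Dynamics.netMaxcard (ψ 1) univ U (N * L) := by
      intro N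
      choose g hg using fun v : Fin N → Fin k => hPM N (fun n => cv (v n)) (fun n => hcv _)
      have hsep : ∀ v v' : Fin N → Fin k, v ≠ v' → ∀ z : Y,
          z ∈ UniformSpace.ball (g v) (Dynamics.dynEntourage (ψ 1) U (N * L)) →
          z ∈ UniformSpace.ball (g v') (Dynamics.dynEntourage (ψ 1) U (N * L)) → False := by
        intro v v' hvv z hz hz'
        obtain ⟨n, hn⟩ := Function.ne_iff.1 hvv
        rw [Dynamics.mem_ball_dynEntourage] at hz hz'
        have hnL : (n : ℕ) * L < N * L := Nat.mul_lt_mul_of_pos_right n.2 (by omega)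
        have e1 : dist (F ((ψ 1)^[(n : ℕ) * L] (g v))) (F ((ψ 1)^[(n : ℕ) * L] z)) < 1 / (4 * k) :=
          hz _ hnL
        have e2 : dist (F ((ψ 1)^[(n : ℕ) * L] (g v'))) (F ((ψ 1)^[(n : ℕ) * L] z)) < 1 / (4 * k) :=
          hz' _ hnL
        rw [hiter] at e1 e2
        push_cast at e1 e2
        rw [hg v n] at e1
        rw [hg v' n] at e2
        have e3 := dist_triangle_right (cv (v n)) (cv (v' n))
          (F ((ψ 1)^[(n : ℕ) * L] z))
        have e4 := hcvsep _ _ hn
        rw [← Real.dist_eq] at e4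
        have e5 : 1 / (4 * (k : ℝ)) + 1 / (4 * k) = 1 / (2 * k) := by field_simp; norm_num
        linarith
      have hinj : Function.Injective g := by
        intro v v' h
        by_contra hvv
        have hrefl : ∀ y : Y, y ∈ UniformSpace.ball y (Dynamics.dynEntourage (ψ 1) U (N * L)) := by
          intro y
          rw [Dynamics.mem_ball_dynEntourage]
          intro i _
          show dist _ _ < _
          rw [dist_self]; positivity
        exact hsep v v' hvv (g v) (hrefl _) (h ▸ hrefl _)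
      have hcard : (Finset.univ.image g).card = k ^ N := by
        rw [Finset.card_image_of_injective _ hinj]
        simp
      have hnet : Dynamics.IsDynNetIn (ψ 1) univ U (N * L) ((Finset.univ.image g : Finset Y) : Set Y) := by
        refine ⟨subset_univ _, ?_⟩
        rintro P hP P' hP' hne
        rw [Finset.mem_coe, Finset.mem_image] at hP hP'
        obtain ⟨v, -, rfl⟩ := hP
        obtain ⟨v', -, rfl⟩ := hP'
        have hvv : v ≠ v' := fun h => hne (by rw [h])
        simp only [Function.onFun]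
        rw [Set.disjoint_left]
        intro z hz hz'
        exact hsep v v' hvv z hz hz'
      rw [← hcard]
      exact hnet.card_le_netMaxcard
    have hLpos : 0 < L := by omega
    have hLr : (0 : ℝ) < L := by exact_mod_cast hLpos
    have h1 : ((Real.log k / L : ℝ) : EReal) ≤ Dynamics.netEntropyEntourage (ψ 1) univ U := by
      unfold Dynamics.netEntropyEntourage
      refine Frequently.le_expGrowthSup ?_
      have htend : Tendsto (fun N : ℕ => N * L) atTop atTop :=
        tendsto_atTop_mono (fun N => Nat.le_mul_of_pos_right N hLpos) tendsto_id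
      refine htend.frequently (Frequently.of_forall fun N => ?_)
      have h2 : EReal.exp (((Real.log k / L : ℝ) : EReal) * ((N * L : ℕ) : EReal)) =
          ENNReal.ofReal ((k : ℝ) ^ N) := by
        have : (((Real.log k / L : ℝ) : EReal) * ((N * L : ℕ) : EReal)) =
            ((Real.log k / L * ((N * L : ℕ) : ℝ) : ℝ) : EReal) := by
          rw [EReal.coe_mul]; rfl
        rw [this, EReal.exp_coe]
        congr 1
        have h3 : Real.log k / L * ((N * L : ℕ) : ℝ) = N * Real.log k := by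
          push_cast; field_simp
        rw [h3, Real.exp_nat_mul, Real.exp_log hk0]
      rw [h2]
      calc ENNReal.ofReal ((k : ℝ) ^ N) = (((k ^ N : ℕ) : ℕ∞) : ENNReal) := by
            rw [← Nat.cast_pow, ENNReal.ofReal_natCast]; rfl
        _ ≤ _ := by exact_mod_cast key N
    exact h1.trans (Dynamics.netEntropyEntourage_le_coverEntropy (T := ψ 1) (F := univ) hUu)
  have hLr : (0 : ℝ) < L := by
    have : 0 < L := by omega
    exact_mod_cast this
  rw [EReal.eq_top_iff_forall_lt]
  intro r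
  obtain ⟨k, hk⟩ := exists_nat_gt (Real.exp ((r + 1) * L))
  have hkpos : (0 : ℝ) < k := (Real.exp_pos _).trans hk
  have hk1 : 1 ≤ k := by
    have : 0 < k := by exact_mod_cast hkpos
    omega
  refine lt_of_lt_of_le ?_ (hlow k hk1)
  have h1 : (r + 1) * L < Real.log k := by
    rw [← Real.log_exp ((r + 1) * L)]
    exact Real.log_lt_log (Real.exp_pos _) hk
  have h2 : r < Real.log k / L := by
    rw [lt_div_iff₀ hLr]
    nlinarith
  exact_mod_cast h2

/-- **Disproof of Q1** -/
theorem result : ∃ (X : Type) (_ : MetricSpace X) (_ : CompactSpace X) (φ : Flow ℝ X),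
    (∀ x : X, ∃ t : ℝ, φ t x ≠ x) ∧ ∃ w w' : X, w ≠ w' ∧
      ∀ (Y : Type u) [MetricSpace Y] [CompactSpace Y] (ψ : Flow ℝ Y) (π : X → Y),
        Flow.IsSemiconjugacy π φ ψ → π w ≠ π w' → Dynamics.coverEntropy (ψ 1) univ = ⊤ := by
  let m : MetricSpace XX := TopologicalSpace.metrizableSpaceMetric XX
  exact ⟨XX, m, inferInstance, flow, fixed_point_free, w₀, w₁, w_ne,
    fun Y _ _ ψ π hπ hne => entropy_top ψ π hπ hne⟩

end Pool.Agent.Results.MP_54b048_an.InfiniteEntropyFactors
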